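import Pool.Agent.V1191.LP.Par

/-!
The fooling function.
-/

open MeasureTheory Set Filter Topology

namespace Pool.Agent.V1191.LP

theorem vol_eq (d : ℕ) : (volume : Measure (Fin d → ℝ)).restrict (Icc 0 1) =
    Measure.pi (fun _ : Fin d => (volume : Measure ℝ).restrict (Icc 0 1)) := by
  rw [← Measure.restrict_pi_pi, volume_pi]
  congr 1
  rw [← Set.pi_univ_Icc]
  rfl

theorem prod_int {d : ℕ} (f : Fin d → ℝ → ℝ) :
    ∫ t in Icc (0 : Fin d → ℝ) 1, ∏ i, f i (t i) = ∏ i, I (f i) := by
  rw [vol_eq, integral_fintype_prod_eq_prod]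

theorem int_ok {d : ℕ} {f : (Fin d → ℝ) → ℝ} (hm : Measurable f) (C : ℝ)
    (hb : ∀ t ∈ Icc (0 : Fin d → ℝ) 1, |f t| ≤ C) :
    Integrable f (volume.restrict (Icc (0 : Fin d → ℝ) 1)) := by
  have hfin : IsFiniteMeasure (volume.restrict (Icc (0 : Fin d → ℝ) 1)) := by
    rw [vol_eq]; infer_instance
  refine Integrable.mono' (integrable_const C) hm.aestronglyMeasurable ?_
  refine (ae_restrict_iff' measurableSet_Icc).mpr (Eventually.of_forall ?_)
  intro t ht
  rw [Real.norm_eq_abs]
  exact hb t ht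

theorem power_sum {n : ℕ} (P : Fin n → ℝ) (hP : ∀ j, 0 ≤ P j) {q : ℝ} (hq : 0 < q) :
    (∑ j, P j) ^ q ≤ (n : ℝ) ^ q * ∑ j, P j ^ q := by
  have h0 : 0 ≤ ∑ j, P j ^ q := Finset.sum_nonneg fun j _ => Real.rpow_nonneg (hP j) _
  have h1 : ∀ k, P k ≤ (∑ j, P j ^ q) ^ (1 / q) := by
    intro k
    have h2 : P k ^ q ≤ ∑ j, P j ^ q :=
      Finset.single_le_sum (fun j _ => Real.rpow_nonneg (hP j) _) (Finset.mem_univ k)
    calc P k = (P k ^ q) ^ (1 / q) := by
          rw [← Real.rpow_mul (hP k), mul_one_div_cancel hq.ne', Real.rpow_one]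
      _ ≤ _ := Real.rpow_le_rpow (Real.rpow_nonneg (hP k) _) h2 (by positivity)
  have h3 : ∑ j, P j ≤ n * (∑ j, P j ^ q) ^ (1 / q) := by
    calc ∑ j, P j ≤ ∑ _j : Fin n, (∑ j, P j ^ q) ^ (1 / q) := Finset.sum_le_sum fun j _ => h1 j
      _ = _ := by simp
  calc (∑ j, P j) ^ q ≤ (n * (∑ j, P j ^ q) ^ (1 / q)) ^ q :=
        Real.rpow_le_rpow (Finset.sum_nonneg fun j _ => hP j) h3 hq.le
    _ = _ := by
        rw [Real.mul_rpow (by positivity) (Real.rpow_nonneg h0 _), ← Real.rpow_mul h0,
          one_div_mul_cancel hq.ne', Real.rpow_one]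

theorem sum_biUnion_le_sum {ι α : Type*} [DecidableEq α] (s : Finset ι) (t : ι → Finset α)
    (f : α → ℝ) (hf : ∀ a, 0 ≤ f a) : ∑ a ∈ s.biUnion t, f a ≤ ∑ i ∈ s, ∑ a ∈ t i, f a := by
  classical
  induction s using Finset.induction_on with
  | empty => simp
  | insert i s hi ih =>
    rw [Finset.biUnion_insert, Finset.sum_insert hi]
    have h1 := Finset.sum_union_inter (s₁ := t i) (s₂ := s.biUnion t) (f := f)
    have h2 : 0 ≤ ∑ a ∈ t i ∩ s.biUnion t, f a := Finset.sum_nonneg fun a _ => hf a
    linarith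

section
variable (a c η θ : ℝ)

/-- the three one-dimensional functions -/
noncomputable def psi (k : Fin 3) : ℝ → ℝ :=
  ![stp a c (1 - θ) (1 + η) (1 - η), stp a c 0 (-η) η, stp a c θ 0 0] k

theorem psi_sum (t : ℝ) : ∑ k, psi a c η θ k t = 1 := by
  rw [Fin.sum_univ_three]
  simp only [psi, Matrix.cons_val_zero, Matrix.cons_val_one, Matrix.cons_val_two, stp,
    Matrix.tail_cons, Matrix.head_cons, Matrix.cons_val]
  split_ifs <;> ring

theorem psi_meas (k : Fin 3) : Measurable (psi a c η θ k) := by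
  fin_cases k
  · exact stp_meas _ _ _ _ _
  · exact stp_meas _ _ _ _ _
  · exact stp_meas _ _ _ _ _

/-- The index which a node does not annihilate. -/
noncomputable def kk (x : ℝ) : Fin 3 := if x ≤ a then 2 else 1

/-- The dominating function. -/
noncomputable def H (x t : ℝ) : ℝ := |psi a c η θ 0 t| + |psi a c η θ (kk a x) t|

variable {a c η θ}

theorem H_le {x : ℝ} (hη : 0 ≤ η) (hη1 : η ≤ 1) (hθ : 0 ≤ θ) (hθ1 : θ ≤ 1) (hx : x ≤ a) :
    H a c η θ x = stp a c 1 (1 + η) (1 - η) := by
  ext t
  unfold H kk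
  rw [if_pos hx]
  simp only [psi, Matrix.cons_val_zero, Matrix.cons_val, stp]
  split_ifs
  · rw [abs_of_nonneg (by linarith), abs_of_nonneg hθ]; ring
  · rw [abs_of_nonneg (by linarith)]; simp
  · rw [abs_of_nonneg (by linarith)]; simp

theorem H_gt {x : ℝ} (hη : 0 ≤ η) (hη1 : η ≤ 1) (hθ : 0 ≤ θ) (hθ1 : θ ≤ 1) (hx : ¬ x ≤ a) :
    H a c η θ x = stp a c (1 - θ) (1 + 2 * η) 1 := by
  ext t
  unfold H kk
  rw [if_neg hx]
  simp only [psi, Matrix.cons_val_zero, Matrix.cons_val, stp]
  split_ifs
  · rw [abs_of_nonneg (by linarith)]; simp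
  · rw [abs_of_nonneg (by linarith), abs_neg, abs_of_nonneg hη]; ring
  · rw [abs_of_nonneg (by linarith), abs_of_nonneg hη]; ring

theorem stp_rpow (u v w q t : ℝ) : stp a c u v w t ^ q = stp a c (u ^ q) (v ^ q) (w ^ q) t := by
  unfold stp; split_ifs <;> rfl

theorem psi_bdd (hη : 0 ≤ η) (hη1 : η ≤ 1) (hθ : 0 ≤ θ) (hθ1 : θ ≤ 1) (k : Fin 3) (t : ℝ) :
    |psi a c η θ k t| ≤ 4 := by
  fin_cases k
  · show |stp a c (1 - θ) (1 + η) (1 - η) t| ≤ 4
    refine (stp_abs_le _ _ _ _ _ _).trans ?_
    rw [abs_of_nonneg (show 0 ≤ 1 - θ by linarith), abs_of_nonneg (show 0 ≤ 1 + η by linarith),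
      abs_of_nonneg (show 0 ≤ 1 - η by linarith)]
    linarith
  · show |stp a c 0 (-η) η t| ≤ 4
    refine (stp_abs_le _ _ _ _ _ _).trans ?_
    rw [abs_neg, abs_of_nonneg hη, abs_zero]
    linarith
  · show |stp a c θ 0 0 t| ≤ 4
    refine (stp_abs_le _ _ _ _ _ _).trans ?_
    rw [abs_of_nonneg hθ, abs_zero]
    linarith

end

theorem annih {p a c η θ : ℝ} (hc : I (fun t => t ^ (p - 1) * stp a c 0 (-η) η t) = 0)
    {x : ℝ} {k : Fin 3} (hk0 : k ≠ 0) (hk : k ≠ kk a x) :
    I (fun t => t ^ (p - 1) * psi a c η θ k t * (if x < t then 1 else 0)) = 0 := by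
  unfold kk at hk
  by_cases hx : x ≤ a
  · rw [if_pos hx] at hk
    have hk1 : k = 1 := by
      fin_cases k
      · exact absurd rfl hk0
      · rfl
      · exact absurd rfl hk
    rw [hk1]
    refine Eq.trans ?_ hc
    congr 1
    ext t
    show t ^ (p - 1) * stp a c 0 (-η) η t * (if x < t then 1 else 0) =
      t ^ (p - 1) * stp a c 0 (-η) η t
    by_cases ht : x < t
    · rw [if_pos ht, mul_one]
    · have h2 : t ≤ a := (not_lt.mp ht).trans hx
      rw [if_neg ht]
      simp [stp, if_pos h2]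
  · rw [if_neg hx] at hk
    have hk1 : k = 2 := by
      fin_cases k
      · exact absurd rfl hk0
      · exact absurd rfl hk
      · rfl
    rw [hk1]
    have : ∀ t, t ^ (p - 1) * psi a c η θ 2 t * (if x < t then (1 : ℝ) else 0) = 0 := by
      intro t
      show t ^ (p - 1) * stp a c θ 0 0 t * (if x < t then 1 else 0) = 0
      by_cases ht : x < t
      · have h2 : ¬ t ≤ a := by
          have := not_le.mp hx
          intro h; linarith
        simp [stp, if_neg h2]
      · rw [if_neg ht, mul_zero]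
    unfold I
    simp only [this]
    simp

/-- **The lower bound.** -/
theorem lower {p q : ℝ} (hpq : p.HolderConjugate q) {a c η θ κ : ℝ}
    (hη : 0 ≤ η) (hη1 : η ≤ 1) (hθ : 0 ≤ θ) (hθ1 : θ ≤ 1) (hκ : 0 < κ)
    (c0 : I (fun t => t ^ (p - 1) * stp a c 0 (-η) η t) = 0)
    (c1 : I (fun t => t ^ p * stp a c (1 - θ) (1 + 2 * η) 1 t) ≤ κ * (1 / (p + 1)))
    (c2 : I (fun t => t ^ p * stp a c 1 (1 + η) (1 - η) t) ≤ κ * (1 / (p + 1)))
    (c3 : I (fun t => t ^ p * stp a c ((1 - θ) ^ q) ((1 + 2 * η) ^ q) 1 t) ≤ κ * (1 / (p + 1)))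
    (c4 : I (fun t => t ^ p * stp a c 1 ((1 + η) ^ q) ((1 - η) ^ q) t) ≤ κ * (1 / (p + 1)))
    {d n : ℕ} (x : Fin n → Fin d → ℝ) (w : Fin n → ℝ)
    (hn : 2 * ((n : ℝ) ^ q * n * κ ^ d) ≤ 1) (hn1 : 1 ≤ n)
    {ε : ℝ} (hε : 0 < ε)
    (h : (∫ t in Icc (0 : Fin d → ℝ) 1,
      |(∏ i, t i) - ∑ j, w j * indicator {y : Fin d → ℝ | ∀ i, x j i < y i} (fun _ => (1 : ℝ)) t| ^ p)
        ≤ ε ^ p * ∫ t in Icc (0 : Fin d → ℝ) 1, |∏ i, t i| ^ p) :
    1 / 8 ≤ ε := by
  classical
  have hp1 : 1 < p := hpq.lt
  have hq1 : 1 < q := hpq.symm.lt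
  have hp0 : 0 < p := by linarith
  have hq0 : 0 < q := by linarith
  set G : ℝ := 1 / (p + 1) with hG
  have hGpos : 0 < G := by positivity
  set Q : Set (Fin d → ℝ) := Icc (0 : Fin d → ℝ) 1 with hQ
  have hQ0 : ∀ t ∈ Q, ∀ i, 0 ≤ t i := fun t ht i => ht.1 i
  have hQ1 : ∀ t ∈ Q, ∀ i, t i ≤ 1 := fun t ht i => ht.2 i
  set ψ := psi a c η θ with hψ
  -- indicator as a product
  set χ : Fin n → (Fin d → ℝ) → ℝ := fun j t => ∏ i, if x j i < t i then 1 else 0 with hχ
  have hind : ∀ j t, indicator {y : Fin d → ℝ | ∀ i, x j i < y i} (fun _ => (1 : ℝ)) t = χ j t := by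
    intro j t
    by_cases ht : ∀ i, x j i < t i
    · rw [indicator_of_mem (show t ∈ {y : Fin d → ℝ | ∀ i, x j i < y i} from ht), hχ]
      simp [ht]
    · rw [indicator_of_notMem (show t ∉ {y : Fin d → ℝ | ∀ i, x j i < y i} from ht), hχ]
      push Not at ht
      obtain ⟨i, hi⟩ := ht
      simp only
      rw [Finset.prod_eq_zero (Finset.mem_univ i)]
      rw [if_neg (not_lt.mpr hi)]
  have hχm : ∀ j, Measurable (χ j) := by
    intro j
    apply Finset.measurable_prod
    intro i _
    exact Measurable.ite (measurableSet_lt measurable_const (measurable_pi_apply i))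
      measurable_const measurable_const
  have hχ01 : ∀ j t, |χ j t| ≤ 1 := by
    intro j t
    rw [hχ]
    simp only
    rw [Finset.abs_prod]
    apply Finset.prod_le_one
    · intro i _; exact abs_nonneg _
    · intro i _; split_ifs <;> simp
  -- the pieces
  set T : (Fin d → Fin 3) → (Fin d → ℝ) → ℝ := fun s t => ∏ i, ψ (s i) (t i) with hT
  set Cc : Fin n → Finset (Fin d → Fin 3) :=
    fun j => Fintype.piFinset (fun i => ({0, kk a (x j i)} : Finset (Fin 3))) with hCc
  set S : Finset (Fin d → Fin 3) := Finset.univ.biUnion Cc with hS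
  have hTm : ∀ s, Measurable (T s) := by
    intro s
    apply Finset.measurable_prod
    intro i _
    exact (psi_meas a c η θ (s i)).comp (measurable_pi_apply i)
  have hTb : ∀ s t, |T s t| ≤ 4 ^ d := by
    intro s t
    rw [hT]
    simp only
    rw [Finset.abs_prod]
    calc _ ≤ ∏ _i : Fin d, (4 : ℝ) :=
          Finset.prod_le_prod (fun i _ => abs_nonneg _)
            (fun i _ => psi_bdd hη hη1 hθ hθ1 (s i) (t i))
      _ = 4 ^ d := by simp
  set E : (Fin d → ℝ) → ℝ := fun t => ∑ s ∈ S, T s t with hE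
  set φ : (Fin d → ℝ) → ℝ := fun t => ∑ s ∈ Sᶜ, T s t with hφ
  have hEm : Measurable E := Finset.measurable_sum _ fun s _ => hTm s
  have hφm : Measurable φ := Finset.measurable_sum _ fun s _ => hTm s
  have hφE : ∀ t, φ t = 1 - E t := by
    intro t
    have h1 : ∑ s, T s t = 1 := by
      have h2 := Finset.prod_univ_sum (fun _ : Fin d => (Finset.univ : Finset (Fin 3)))
        (fun i k => ψ k (t i))
      rw [Fintype.piFinset_univ] at h2
      rw [hT]
      simp only
      rw [← h2]
      apply Finset.prod_eq_one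
      intro i _
      exact psi_sum a c η θ (t i)
    have h3 := Finset.sum_add_sum_compl S (fun s => T s t)
    rw [h1] at h3
    rw [hφ, hE]
    simp only
    linarith
  set W : Fin n → (Fin d → ℝ) → ℝ := fun j t => ∏ i, H a c η θ (x j i) (t i) with hW
  have hHnn : ∀ y t, 0 ≤ H a c η θ y t := fun y t => add_nonneg (abs_nonneg _) (abs_nonneg _)
  have hHm : ∀ y, Measurable (H a c η θ y) := fun y =>
    ((psi_meas a c η θ 0).abs).add ((psi_meas a c η θ _).abs)
  have hHb : ∀ y t, H a c η θ y t ≤ 8 := by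
    intro y t
    have h1 := psi_bdd (a := a) (c := c) hη hη1 hθ hθ1 0 t
    have h2 := psi_bdd (a := a) (c := c) hη hη1 hθ hθ1 (kk a y) t
    unfold H; linarith
  have hWnn : ∀ j t, 0 ≤ W j t := fun j t => Finset.prod_nonneg fun i _ => hHnn _ _
  have hWm : ∀ j, Measurable (W j) := fun j =>
    Finset.measurable_prod _ fun i _ => (hHm _).comp (measurable_pi_apply i)
  have hWb : ∀ j t, W j t ≤ 8 ^ d := by
    intro j t
    calc W j t ≤ ∏ _i : Fin d, (8 : ℝ) :=
          Finset.prod_le_prod (fun i _ => hHnn _ _) (fun i _ => hHb _ _)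
      _ = 8 ^ d := by simp
  have hEW : ∀ t, |E t| ≤ ∑ j, W j t := by
    intro t
    calc |E t| ≤ ∑ s ∈ S, |T s t| := Finset.abs_sum_le_sum_abs _ _
      _ ≤ ∑ j, ∑ s ∈ Cc j, |T s t| := by
          rw [hS]
          exact sum_biUnion_le_sum Finset.univ Cc (fun s => |T s t|)
            (fun s => abs_nonneg _)
      _ = ∑ j, W j t := by
          apply Finset.sum_congr rfl
          intro j _
          have h2 := Finset.prod_univ_sum (fun i : Fin d => ({0, kk a (x j i)} : Finset (Fin 3)))
            (fun i k => |ψ k (t i)|)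
          rw [hT, hW, hCc]
          simp only
          simp only [Finset.abs_prod]
          rw [← h2]
          apply Finset.prod_congr rfl
          intro i _
          have hne : (0 : Fin 3) ≠ kk a (x j i) := by
            unfold kk; split_ifs <;> decide
          rw [Finset.sum_pair hne]
          rfl
  -- one dimensional integrals
  have hIH : ∀ y, I (fun t => t ^ p * H a c η θ y t) ≤ κ * G := by
    intro y
    by_cases hy : y ≤ a
    · rw [H_le hη hη1 hθ hθ1 hy]; exact c2
    · rw [H_gt hη hη1 hθ hθ1 hy]; exact c1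
  have hIHq : ∀ y, I (fun t => t ^ p * H a c η θ y t ^ q) ≤ κ * G := by
    intro y
    by_cases hy : y ≤ a
    · rw [H_le hη hη1 hθ hθ1 hy]; simp only [stp_rpow, Real.one_rpow]; exact c4
    · rw [H_gt hη hη1 hθ hθ1 hy]; simp only [stp_rpow, Real.one_rpow]; exact c3
  have hI1 : I (fun t => t ^ p) = G := by
    unfold I
    rw [integral_Icc_eq_integral_Ioc, ← intervalIntegral.integral_of_le zero_le_one,
      integral_rpow (Or.inl (by linarith))]
    rw [Real.one_rpow, Real.zero_rpow (by linarith), hG]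
    ring
  set P : (Fin d → ℝ) → ℝ := fun t => ∏ i, t i ^ p with hP
  have hPm : Measurable P := Finset.measurable_prod _ fun i _ =>
    (measurable_pi_apply i).pow_const p
  have hP01 : ∀ t ∈ Q, 0 ≤ P t ∧ P t ≤ 1 := by
    intro t ht
    constructor
    · exact Finset.prod_nonneg fun i _ => Real.rpow_nonneg (hQ0 t ht i) _
    · exact Finset.prod_le_one (fun i _ => Real.rpow_nonneg (hQ0 t ht i) _)
        (fun i _ => Real.rpow_le_one (hQ0 t ht i) (hQ1 t ht i) hp0.le)
  have hPint : ∫ t in Q, P t = G ^ d := by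
    have := prod_int (d := d) (fun _ t => t ^ p)
    rw [hP]
    simp only at this ⊢
    rw [this, hI1]
    simp
  -- integrability helper
  have hok : ∀ f : (Fin d → ℝ) → ℝ, Measurable f → (∃ C, ∀ t ∈ Q, |f t| ≤ C) →
      Integrable f (volume.restrict Q) := fun f hf ⟨C, hC⟩ => int_ok hf C hC
  have hEb : ∀ t, |E t| ≤ n * 8 ^ d := by
    intro t
    refine (hEW t).trans ?_
    calc ∑ j, W j t ≤ ∑ _j : Fin n, (8 : ℝ) ^ d := Finset.sum_le_sum fun j _ => hWb j t
      _ = n * 8 ^ d := by simp
  have hI_nn : ∀ y, 0 ≤ I (fun t => t ^ p * H a c η θ y t) := by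
    intro y
    apply setIntegral_nonneg measurableSet_Icc
    intro t ht
    exact mul_nonneg (Real.rpow_nonneg ht.1 _) (hHnn _ _)
  have hIq_nn : ∀ y, 0 ≤ I (fun t => t ^ p * H a c η θ y t ^ q) := by
    intro y
    apply setIntegral_nonneg measurableSet_Icc
    intro t ht
    exact mul_nonneg (Real.rpow_nonneg ht.1 _) (Real.rpow_nonneg (hHnn _ _) _)
  have hokP : ∀ f : (Fin d → ℝ) → ℝ, Measurable f → (∃ C, ∀ t, |f t| ≤ C) →
      Integrable (fun t => P t * f t) (volume.restrict Q) := by
    intro f hf ⟨C, hC⟩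
    refine hok _ (hPm.mul hf) ⟨C, fun t ht => ?_⟩
    show |P t * f t| ≤ C
    rw [abs_mul, abs_of_nonneg (hP01 t ht).1]
    calc P t * |f t| ≤ 1 * C :=
          mul_le_mul (hP01 t ht).2 (hC t) (abs_nonneg _) zero_le_one
      _ = _ := one_mul _
  -- first moment of `E`
  have hM1 : ∫ t in Q, P t * |E t| ≤ n * (κ ^ d * G ^ d) := by
    calc ∫ t in Q, P t * |E t| ≤ ∫ t in Q, ∑ j, P t * W j t := by
          apply setIntegral_mono_on
          · exact hokP _ hEm.abs ⟨n * 8 ^ d, fun t => by rw [abs_abs]; exact hEb t⟩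
          · apply integrable_finsetSum
            intro j _
            exact hokP _ (hWm j) ⟨8 ^ d, fun t => by rw [abs_of_nonneg (hWnn j t)]; exact hWb j t⟩
          · exact measurableSet_Icc
          · intro t ht
            rw [← Finset.mul_sum]
            exact mul_le_mul_of_nonneg_left (hEW t) (hP01 t ht).1
      _ = ∑ j, ∫ t in Q, P t * W j t := by
          rw [integral_finsetSum]
          intro j _
          exact hokP _ (hWm j) ⟨8 ^ d, fun t => by rw [abs_of_nonneg (hWnn j t)]; exact hWb j t⟩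
      _ ≤ ∑ _j : Fin n, (κ ^ d * G ^ d) := by
          apply Finset.sum_le_sum
          intro j _
          have h1 := prod_int (d := d) (fun i t => t ^ p * H a c η θ (x j i) t)
          have h2 : ∀ t : Fin d → ℝ, P t * W j t = ∏ i, (t i ^ p * H a c η θ (x j i) (t i)) := by
            intro t
            rw [hP, hW]
            simp only
            rw [Finset.prod_mul_distrib]
          simp only [h2]
          rw [h1, ← mul_pow]
          calc ∏ i, I (fun t => t ^ p * H a c η θ (x j i) t) ≤ ∏ _i : Fin d, (κ * G) :=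
                Finset.prod_le_prod (fun i _ => hI_nn _) (fun i _ => hIH _)
            _ = (κ * G) ^ d := by simp
      _ = n * (κ ^ d * G ^ d) := by simp
  -- `q`-th moment of `E`
  have hWq : ∀ j t, W j t ^ q = ∏ i, H a c η θ (x j i) (t i) ^ q := by
    intro j t
    rw [hW]
    simp only
    rw [Real.finset_prod_rpow _ _ (fun i _ => hHnn _ _)]
  have hWqb : ∀ j, ∃ C, ∀ t, |W j t ^ q| ≤ C := fun j => ⟨(8 ^ d) ^ q, fun t => by
    rw [abs_of_nonneg (Real.rpow_nonneg (hWnn j t) _)]
    exact Real.rpow_le_rpow (hWnn j t) (hWb j t) hq0.le⟩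
  have hEqb : ∃ C, ∀ t, |(|E t| ^ q)| ≤ C := ⟨(n * 8 ^ d) ^ q, fun t => by
    rw [abs_of_nonneg (Real.rpow_nonneg (abs_nonneg _) _)]
    exact Real.rpow_le_rpow (abs_nonneg _) (hEb t) hq0.le⟩
  have hMq : ∫ t in Q, P t * |E t| ^ q ≤ (n : ℝ) ^ q * (n * (κ ^ d * G ^ d)) := by
    calc ∫ t in Q, P t * |E t| ^ q ≤ ∫ t in Q, (n : ℝ) ^ q * ∑ j, P t * W j t ^ q := by
          apply setIntegral_mono_on
          · exact hokP _ (hEm.abs.pow_const q) hEqb
          · apply Integrable.const_mul
            apply integrable_finsetSum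
            intro j _
            exact hokP _ ((hWm j).pow_const q) (hWqb j)
          · exact measurableSet_Icc
          · intro t ht
            rw [← Finset.mul_sum]
            have h1 : |E t| ^ q ≤ (n : ℝ) ^ q * ∑ j, W j t ^ q :=
              (Real.rpow_le_rpow (abs_nonneg _) (hEW t) hq0.le).trans
                (power_sum (fun j => W j t) (fun j => hWnn j t) hq0)
            calc P t * |E t| ^ q ≤ P t * ((n : ℝ) ^ q * ∑ j, W j t ^ q) :=
                  mul_le_mul_of_nonneg_left h1 (hP01 t ht).1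
              _ = _ := by ring
      _ = (n : ℝ) ^ q * ∑ j, ∫ t in Q, P t * W j t ^ q := by
          rw [integral_const_mul, integral_finsetSum]
          intro j _
          exact hokP _ ((hWm j).pow_const q) (hWqb j)
      _ ≤ (n : ℝ) ^ q * ∑ _j : Fin n, (κ ^ d * G ^ d) := by
          apply mul_le_mul_of_nonneg_left _ (Real.rpow_nonneg (Nat.cast_nonneg n) _)
          apply Finset.sum_le_sum
          intro j _
          have h1 := prod_int (d := d) (fun i t => t ^ p * H a c η θ (x j i) t ^ q)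
          have h2 : ∀ t : Fin d → ℝ, P t * W j t ^ q =
              ∏ i, (t i ^ p * H a c η θ (x j i) (t i) ^ q) := by
            intro t
            rw [hWq, hP]
            simp only
            rw [Finset.prod_mul_distrib]
          simp only [h2]
          rw [h1, ← mul_pow]
          calc ∏ i, I (fun t => t ^ p * H a c η θ (x j i) t ^ q) ≤ ∏ _i : Fin d, (κ * G) :=
                Finset.prod_le_prod (fun i _ => hIq_nn _) (fun i _ => hIHq _)
            _ = (κ * G) ^ d := by simp
      _ = (n : ℝ) ^ q * (n * (κ ^ d * G ^ d)) := by simp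
  -- the test function
  set R : (Fin d → ℝ) → ℝ := fun t => ∏ i, t i ^ (p - 1) with hR
  have hRm : Measurable R := Finset.measurable_prod _ fun i _ =>
    (measurable_pi_apply i).pow_const (p - 1)
  have hR01 : ∀ t ∈ Q, 0 ≤ R t ∧ R t ≤ 1 := by
    intro t ht
    constructor
    · exact Finset.prod_nonneg fun i _ => Real.rpow_nonneg (hQ0 t ht i) _
    · exact Finset.prod_le_one (fun i _ => Real.rpow_nonneg (hQ0 t ht i) _)
        (fun i _ => Real.rpow_le_one (hQ0 t ht i) (hQ1 t ht i) (by linarith))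
  set g : (Fin d → ℝ) → ℝ := fun t => R t * φ t with hg
  have hgm : Measurable g := hRm.mul hφm
  have hφb : ∀ t, |φ t| ≤ 1 + n * 8 ^ d := by
    intro t
    rw [hφE]
    calc |1 - E t| ≤ |1| + |E t| := abs_sub _ _
      _ ≤ 1 + n * 8 ^ d := by rw [abs_one]; linarith [hEb t]
  have hgb : ∀ t ∈ Q, |g t| ≤ 1 + n * 8 ^ d := by
    intro t ht
    rw [hg]
    simp only
    rw [abs_mul, abs_of_nonneg (hR01 t ht).1]
    calc R t * |φ t| ≤ 1 * (1 + n * 8 ^ d) :=
          mul_le_mul (hR01 t ht).2 (hφb t) (abs_nonneg _) zero_le_one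
      _ = _ := one_mul _
  -- annihilation of the nodes
  have hann : ∀ j, ∫ t in Q, χ j t * g t = 0 := by
    intro j
    have h1 : ∀ t, χ j t * g t = ∑ s ∈ Sᶜ,
        ∏ i, (t i ^ (p - 1) * psi a c η θ (s i) (t i) * (if x j i < t i then 1 else 0)) := by
      intro t
      rw [hg, hφ, hR, hχ, hT]
      simp only
      rw [Finset.mul_sum, Finset.mul_sum]
      apply Finset.sum_congr rfl
      intro s _
      rw [← Finset.prod_mul_distrib, ← Finset.prod_mul_distrib]
      apply Finset.prod_congr rfl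
      intro i _
      ring
    simp only [h1]
    rw [integral_finsetSum]
    · apply Finset.sum_eq_zero
      intro s hs
      rw [prod_int (d := d) (fun i t => t ^ (p - 1) * psi a c η θ (s i) t *
        (if x j i < t then 1 else 0))]
      have h2 : s ∉ Cc j := by
        intro hcon
        rw [Finset.mem_compl, hS, Finset.mem_biUnion] at hs
        exact hs ⟨j, Finset.mem_univ j, hcon⟩
      rw [hCc] at h2
      simp only [Fintype.mem_piFinset, Finset.mem_insert, Finset.mem_singleton, not_forall,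
        not_or] at h2
      obtain ⟨i, hi0, hi1⟩ := h2
      exact Finset.prod_eq_zero (Finset.mem_univ i) (annih c0 hi0 hi1)
    · intro s _
      have h2 : (fun t : Fin d → ℝ => ∏ i, (t i ^ (p - 1) * psi a c η θ (s i) (t i) *
          (if x j i < t i then 1 else 0))) = fun t => R t * T s t * χ j t := by
        ext t
        rw [hR, hχ, hT]
        simp only
        rw [Finset.prod_mul_distrib, Finset.prod_mul_distrib]
      rw [h2]
      refine hok _ ((hRm.mul (hTm s)).mul (hχm j)) ⟨4 ^ d, fun t ht => ?_⟩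
      show |R t * T s t * χ j t| ≤ 4 ^ d
      rw [abs_mul, abs_mul, abs_of_nonneg (hR01 t ht).1]
      calc R t * |T s t| * |χ j t| ≤ 1 * 4 ^ d * 1 :=
            mul_le_mul (mul_le_mul (hR01 t ht).2 (hTb s t) (abs_nonneg _) zero_le_one)
              (hχ01 j t) (abs_nonneg _) (by positivity)
        _ = 4 ^ d := by ring
  -- the discrepancy function
  set V : (Fin d → ℝ) → ℝ := fun t => ∏ i, t i with hV
  have hVm : Measurable V := Finset.measurable_prod _ fun i _ => measurable_pi_apply i
  have hV01 : ∀ t ∈ Q, 0 ≤ V t ∧ V t ≤ 1 := by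
    intro t ht
    exact ⟨Finset.prod_nonneg fun i _ => hQ0 t ht i,
      Finset.prod_le_one (fun i _ => hQ0 t ht i) (fun i _ => hQ1 t ht i)⟩
  set D : (Fin d → ℝ) → ℝ := fun t => V t - ∑ j, w j * χ j t with hD
  have hDm : Measurable D := hVm.sub (Finset.measurable_sum _ fun j _ => (hχm j).const_mul _)
  have hDb : ∀ t ∈ Q, |D t| ≤ 1 + ∑ j, |w j| := by
    intro t ht
    rw [hD]
    simp only
    calc |V t - ∑ j, w j * χ j t| ≤ |V t| + |∑ j, w j * χ j t| := abs_sub _ _
      _ ≤ 1 + ∑ j, |w j| := by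
          apply add_le_add
          · rw [abs_of_nonneg (hV01 t ht).1]; exact (hV01 t ht).2
          · refine (Finset.abs_sum_le_sum_abs _ _).trans (Finset.sum_le_sum fun j _ => ?_)
            rw [abs_mul]
            calc |w j| * |χ j t| ≤ |w j| * 1 :=
                  mul_le_mul_of_nonneg_left (hχ01 j t) (abs_nonneg _)
              _ = _ := mul_one _
  have hVP : ∀ t ∈ Q, V t * R t = P t := by
    intro t ht
    rw [hV, hR, hP]
    simp only
    rw [← Finset.prod_mul_distrib]
    apply Finset.prod_congr rfl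
    intro i _
    have h0 := hQ0 t ht i
    rw [← Real.rpow_one_add' h0 (by linarith)]
    congr 1; ring
  have hgI : Integrable g (volume.restrict Q) := hok g hgm ⟨_, hgb⟩
  have hDg : ∫ t in Q, D t * g t = ∫ t in Q, P t * φ t := by
    have h1 : ∀ t, D t * g t = V t * g t - ∑ j, w j * (χ j t * g t) := by
      intro t
      rw [hD]
      simp only
      rw [sub_mul, Finset.sum_mul]
      congr 1
      apply Finset.sum_congr rfl
      intro j _
      ring
    have hVg : Integrable (fun t => V t * g t) (volume.restrict Q) := by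
      refine hok _ (hVm.mul hgm) ⟨1 * (1 + n * 8 ^ d), fun t ht => ?_⟩
      show |V t * g t| ≤ _
      rw [abs_mul, abs_of_nonneg (hV01 t ht).1]
      exact mul_le_mul (hV01 t ht).2 (hgb t ht) (abs_nonneg _) zero_le_one
    have hχg : ∀ j, Integrable (fun t => χ j t * g t) (volume.restrict Q) := by
      intro j
      refine hok _ ((hχm j).mul hgm) ⟨1 * (1 + n * 8 ^ d), fun t ht => ?_⟩
      show |χ j t * g t| ≤ _
      rw [abs_mul]
      exact mul_le_mul (hχ01 j t) (hgb t ht) (abs_nonneg _) zero_le_one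
    simp only [h1]
    rw [integral_sub hVg (integrable_finsetSum _ fun j _ => (hχg j).const_mul _),
      integral_finsetSum _ (fun j _ => (hχg j).const_mul _)]
    simp only [integral_const_mul, hann, mul_zero, Finset.sum_const_zero, sub_zero]
    apply setIntegral_congr_fun measurableSet_Icc
    intro t ht
    show V t * (R t * φ t) = P t * φ t
    rw [← mul_assoc, hVP t ht]
  have hnκ : (n : ℝ) * κ ^ d ≤ 1 / 2 := by
    have h1 : (1 : ℝ) ≤ (n : ℝ) ^ q := Real.one_le_rpow (by exact_mod_cast hn1) hq0.le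
    have h2 : 0 ≤ (n : ℝ) * κ ^ d := by positivity
    nlinarith
  have hnκ' : (n : ℝ) ^ q * n * κ ^ d ≤ 1 := by
    have h2 : 0 ≤ (n : ℝ) ^ q * n * κ ^ d := by positivity
    linarith
  have hGd : 0 < G ^ d := by positivity
  have hlow : G ^ d / 2 ≤ ∫ t in Q, P t * φ t := by
    have hPI : Integrable P (volume.restrict Q) :=
      hok P hPm ⟨1, fun t ht => by rw [abs_of_nonneg (hP01 t ht).1]; exact (hP01 t ht).2⟩
    have hPE : Integrable (fun t => P t * E t) (volume.restrict Q) := hokP E hEm ⟨_, hEb⟩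
    have hPEa : Integrable (fun t => P t * |E t|) (volume.restrict Q) :=
      hokP _ hEm.abs ⟨n * 8 ^ d, fun t => by rw [abs_abs]; exact hEb t⟩
    have h1 : ∫ t in Q, P t * φ t = G ^ d - ∫ t in Q, P t * E t := by
      rw [← hPint, ← integral_sub hPI hPE]
      apply integral_congr_ae
      apply Eventually.of_forall
      intro t
      simp only
      rw [hφE]; ring
    have h2 : ∫ t in Q, P t * E t ≤ ∫ t in Q, P t * |E t| := by
      apply setIntegral_mono_on hPE hPEa measurableSet_Icc
      intro t ht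
      exact mul_le_mul_of_nonneg_left (le_abs_self _) (hP01 t ht).1
    have h3 : (n : ℝ) * (κ ^ d * G ^ d) ≤ 1 / 2 * G ^ d := by
      calc (n : ℝ) * (κ ^ d * G ^ d) = n * κ ^ d * G ^ d := by ring
        _ ≤ _ := mul_le_mul_of_nonneg_right hnκ hGd.le
    rw [h1]
    linarith
  have hgq : ∫ t in Q, ‖g t‖ ^ q ≤ 4 ^ q * G ^ d := by
    have hEqI : Integrable (fun t => P t * |E t| ^ q) (volume.restrict Q) :=
      hokP _ (hEm.abs.pow_const q) hEqb
    have hPI : Integrable P (volume.restrict Q) :=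
      hok P hPm ⟨1, fun t ht => by rw [abs_of_nonneg (hP01 t ht).1]; exact (hP01 t ht).2⟩
    calc ∫ t in Q, ‖g t‖ ^ q ≤ ∫ t in Q, 2 ^ q * (P t + P t * |E t| ^ q) := by
          apply setIntegral_mono_on _ ((hPI.add hEqI).const_mul _) measurableSet_Icc
          · intro t ht
            rw [Real.norm_eq_abs, hg]
            simp only
            rw [abs_mul, abs_of_nonneg (hR01 t ht).1,
              Real.mul_rpow (hR01 t ht).1 (abs_nonneg _)]
            have h1 : R t ^ q = P t := by
              rw [hR, hP]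
              simp only
              rw [← Real.finsetProd_rpow _ _ (fun i _ => Real.rpow_nonneg (hQ0 t ht i) _)]
              apply Finset.prod_congr rfl
              intro i _
              rw [← Real.rpow_mul (hQ0 t ht i), hpq.sub_one_mul_conj]
            rw [h1]
            have h2 : |φ t| ^ q ≤ 2 ^ q * (1 + |E t| ^ q) := by
              have h3 : |φ t| ≤ 2 * max 1 |E t| := by
                rw [hφE]
                calc |1 - E t| ≤ |1| + |E t| := abs_sub _ _
                  _ ≤ max 1 |E t| + max 1 |E t| := by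
                      rw [abs_one]; exact add_le_add (le_max_left _ _) (le_max_right _ _)
                  _ = _ := by ring
              calc |φ t| ^ q ≤ (2 * max 1 |E t|) ^ q :=
                    Real.rpow_le_rpow (abs_nonneg _) h3 hq0.le
                _ = 2 ^ q * (max 1 |E t|) ^ q := Real.mul_rpow (by norm_num) (by positivity)
                _ ≤ 2 ^ q * (1 + |E t| ^ q) := by
                    apply mul_le_mul_of_nonneg_left _ (Real.rpow_nonneg (by norm_num) _)
                    rcases le_total 1 |E t| with h4 | h4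
                    · rw [max_eq_right h4]; linarith
                    · rw [max_eq_left h4, Real.one_rpow]
                      linarith [Real.rpow_nonneg (abs_nonneg (E t)) q]
            show P t * |φ t| ^ q ≤ 2 ^ q * (P t + P t * |E t| ^ q)
            calc P t * |φ t| ^ q ≤ P t * (2 ^ q * (1 + |E t| ^ q)) :=
                  mul_le_mul_of_nonneg_left h2 (hP01 t ht).1
              _ = _ := by ring
          · refine hok _ (hgm.norm.pow_const q) ⟨(1 + n * 8 ^ d) ^ q, fun t ht => ?_⟩
            rw [Real.norm_eq_abs, abs_of_nonneg (Real.rpow_nonneg (abs_nonneg _) _)]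
            exact Real.rpow_le_rpow (abs_nonneg _) (hgb t ht) hq0.le
      _ = 2 ^ q * (G ^ d + ∫ t in Q, P t * |E t| ^ q) := by
          rw [integral_const_mul, integral_add hPI hEqI, hPint]
      _ ≤ 2 ^ q * (G ^ d + G ^ d) := by
          have h5 : (n : ℝ) ^ q * (n * (κ ^ d * G ^ d)) ≤ G ^ d := by
            calc (n : ℝ) ^ q * (n * (κ ^ d * G ^ d)) = (n : ℝ) ^ q * n * κ ^ d * G ^ d := by ring
              _ ≤ 1 * G ^ d := mul_le_mul_of_nonneg_right hnκ' hGd.le
              _ = _ := one_mul _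
          have h6 : (0 : ℝ) < 2 ^ q := by positivity
          nlinarith
      _ = 2 ^ q * 2 * G ^ d := by ring
      _ ≤ 4 ^ q * G ^ d := by
          apply mul_le_mul_of_nonneg_right _ hGd.le
          have h7 : (2 : ℝ) ≤ 2 ^ q := by
            calc (2 : ℝ) = 2 ^ (1 : ℝ) := by simp
              _ ≤ 2 ^ q := Real.rpow_le_rpow_of_exponent_le (by norm_num) hq1.le
          have h8 : (4 : ℝ) ^ q = 2 ^ q * 2 ^ q := by
            rw [← Real.mul_rpow (by norm_num) (by norm_num)]; norm_num
          rw [h8]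
          have h6 : (0 : ℝ) < 2 ^ q := by positivity
          nlinarith
  -- Hölder
  have hfin : IsFiniteMeasure (volume.restrict Q) := by
    rw [hQ, vol_eq]; infer_instance
  have hDL : MemLp D (ENNReal.ofReal p) (volume.restrict Q) := by
    refine MemLp.of_bound hDm.aestronglyMeasurable (1 + ∑ j, |w j|) ?_
    refine (ae_restrict_iff' measurableSet_Icc).mpr (Eventually.of_forall fun t ht => ?_)
    rw [Real.norm_eq_abs]; exact hDb t ht
  have hgL : MemLp g (ENNReal.ofReal q) (volume.restrict Q) := by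
    refine MemLp.of_bound hgm.aestronglyMeasurable (1 + n * 8 ^ d) ?_
    refine (ae_restrict_iff' measurableSet_Icc).mpr (Eventually.of_forall fun t ht => ?_)
    rw [Real.norm_eq_abs]; exact hgb t ht
  have hH := integral_mul_norm_le_Lp_mul_Lq hpq hDL hgL
  have hDp : ∫ t in Q, ‖D t‖ ^ p ≤ ε ^ p * G ^ d := by
    have e1 : ∫ t in Q, |∏ i, t i| ^ p = G ^ d := by
      rw [← hPint]
      apply setIntegral_congr_fun measurableSet_Icc
      intro t ht
      show |V t| ^ p = P t
      rw [abs_of_nonneg (hV01 t ht).1, hV, hP]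
      simp only
      rw [Real.finsetProd_rpow _ _ (fun i _ => hQ0 t ht i)]
    rw [e1] at h
    refine le_trans (le_of_eq ?_) h
    apply integral_congr_ae
    apply Eventually.of_forall
    intro t
    simp only [hind]
    rw [Real.norm_eq_abs]
  have hfin2 : G ^ d / 2 ≤ (ε ^ p * G ^ d) ^ (1 / p) * (4 ^ q * G ^ d) ^ (1 / q) := by
    calc G ^ d / 2 ≤ ∫ t in Q, D t * g t := by rw [hDg]; exact hlow
      _ ≤ ∫ t in Q, ‖D t‖ * ‖g t‖ := by
          have h1 : ∀ t ∈ Q, |D t * g t| ≤ (1 + ∑ j, |w j|) * (1 + n * 8 ^ d) := by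
            intro t ht
            rw [abs_mul]
            exact mul_le_mul (hDb t ht) (hgb t ht) (abs_nonneg _)
              ((abs_nonneg _).trans (hDb t ht))
          apply setIntegral_mono_on (hok _ (hDm.mul hgm) ⟨_, h1⟩)
            (hok _ (hDm.norm.mul hgm.norm) ⟨_, fun t ht => by
              show |‖D t‖ * ‖g t‖| ≤ _
              rw [abs_mul, abs_norm, abs_norm, ← norm_mul]; exact h1 t ht⟩) measurableSet_Icc
          intro t _
          show D t * g t ≤ ‖D t‖ * ‖g t‖
          rw [← norm_mul]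
          exact Real.le_norm_self _
      _ ≤ _ := hH
      _ ≤ _ := by
          apply mul_le_mul
          · exact Real.rpow_le_rpow (integral_nonneg fun t => Real.rpow_nonneg (norm_nonneg _) _)
              hDp (by positivity)
          · exact Real.rpow_le_rpow (integral_nonneg fun t => Real.rpow_nonneg (norm_nonneg _) _)
              hgq (by positivity)
          · exact Real.rpow_nonneg (integral_nonneg fun t => Real.rpow_nonneg (norm_nonneg _) _) _
          · exact Real.rpow_nonneg (by positivity) _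
  have hfin3 : (ε ^ p * G ^ d) ^ (1 / p) * (4 ^ q * G ^ d) ^ (1 / q) = 4 * ε * G ^ d := by
    rw [Real.mul_rpow (by positivity) hGd.le, Real.mul_rpow (by positivity) hGd.le,
      ← Real.rpow_mul hε.le, ← Real.rpow_mul (by norm_num), mul_one_div_cancel hp0.ne',
      mul_one_div_cancel hq0.ne', Real.rpow_one, Real.rpow_one]
    have h1 : (G ^ d) ^ (1 / p) * (G ^ d) ^ (1 / q) = G ^ d := by
      rw [← Real.rpow_add hGd]
      have : 1 / p + 1 / q = 1 := by
        have := hpq.inv_add_inv_eq_one
        simpa [one_div] using this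
      rw [this, Real.rpow_one]
    calc ε * (G ^ d) ^ (1 / p) * (4 * (G ^ d) ^ (1 / q)) =
        4 * ε * ((G ^ d) ^ (1 / p) * (G ^ d) ^ (1 / q)) := by ring
      _ = _ := by rw [h1]
  rw [hfin3] at hfin2
  by_contra hcon
  have hcon := not_le.mp hcon
  nlinarith

end Pool.Agent.V1191.LP
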