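import Mathlib

/-!
One-dimensional building blocks for the curse of dimensionality of the `L_p` discrepancy with
arbitrary weights.
-/

open MeasureTheory Set Filter

namespace Pool.Agent.V1191.LP

/-- `∫_0^1` of a function, with the restricted measure. -/
noncomputable abbrev I (f : ℝ → ℝ) : ℝ := ∫ t in Icc (0 : ℝ) 1, f t

/-- step function with values `u, v, w` on `[0,a]`, `(a,c]`, `(c,1]`. -/
noncomputable def stp (a c u v w : ℝ) (t : ℝ) : ℝ := if t ≤ a then u else if t ≤ c then v else w

theorem stp_meas (a c u v w : ℝ) : Measurable (stp a c u v w) := by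
  unfold stp
  exact Measurable.ite measurableSet_Iic measurable_const
    (Measurable.ite measurableSet_Iic measurable_const measurable_const)

theorem stp_abs_le (a c u v w t : ℝ) : |stp a c u v w t| ≤ |u| + |v| + |w| := by
  unfold stp
  have := abs_nonneg u; have := abs_nonneg v; have := abs_nonneg w
  split_ifs <;> linarith

/-- `∫_s^1 t^r * stp` as interval integrals. -/
theorem I_stp {a c : ℝ} (ha : 0 ≤ a) (hac : a ≤ c) (hc : c ≤ 1) (u v w r : ℝ) (hr : 0 ≤ r) :
    I (fun t => t ^ r * stp a c u v w t) =
      u * (a ^ (r + 1) / (r + 1)) + v * ((c ^ (r + 1) - a ^ (r + 1)) / (r + 1)) +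
        w * ((1 - c ^ (r + 1)) / (r + 1)) := by
  have hcont : Continuous fun t : ℝ => t ^ r := Real.continuous_rpow_const hr
  have hint : ∀ x y : ℝ, ∀ k : ℝ, IntervalIntegrable (fun t => t ^ r * k) volume x y :=
    fun x y k => (hcont.mul continuous_const).intervalIntegrable x y
  have e1 : ∫ t in (0 : ℝ)..a, t ^ r * stp a c u v w t = ∫ t in (0 : ℝ)..a, t ^ r * u := by
    apply intervalIntegral.integral_congr_ae
    apply Eventually.of_forall
    intro t ht
    rw [uIoc_of_le ha] at ht
    simp only [stp, if_pos ht.2]
  have e2 : ∫ t in a..c, t ^ r * stp a c u v w t = ∫ t in a..c, t ^ r * v := by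
    apply intervalIntegral.integral_congr_ae
    apply Eventually.of_forall
    intro t ht
    rw [uIoc_of_le hac] at ht
    simp only [stp, if_neg (not_le.mpr ht.1), if_pos ht.2]
  have e3 : ∫ t in c..1, t ^ r * stp a c u v w t = ∫ t in c..1, t ^ r * w := by
    apply intervalIntegral.integral_congr_ae
    apply Eventually.of_forall
    intro t ht
    rw [uIoc_of_le hc] at ht
    have h1 : ¬ t ≤ a := by
      have := ht.1
      intro h; linarith
    simp only [stp, if_neg h1, if_neg (not_le.mpr ht.1)]
  have i1 : IntervalIntegrable (fun t => t ^ r * stp a c u v w t) volume 0 a := by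
    refine (hint 0 a u).congr ?_
    intro t ht
    rw [uIoc_of_le ha] at ht
    simp only [stp, if_pos ht.2]
  have i2 : IntervalIntegrable (fun t => t ^ r * stp a c u v w t) volume a c := by
    refine (hint a c v).congr ?_
    intro t ht
    rw [uIoc_of_le hac] at ht
    simp only [stp, if_neg (not_le.mpr ht.1), if_pos ht.2]
  have i3 : IntervalIntegrable (fun t => t ^ r * stp a c u v w t) volume c 1 := by
    refine (hint c 1 w).congr ?_
    intro t ht
    rw [uIoc_of_le hc] at ht
    have h1 : ¬ t ≤ a := by
      have := ht.1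
      intro h; linarith
    simp only [stp, if_neg h1, if_neg (not_le.mpr ht.1)]
  have hp : ∀ x y : ℝ, ∫ t in x..y, t ^ r = (y ^ (r + 1) - x ^ (r + 1)) / (r + 1) :=
    fun x y => integral_rpow (Or.inl (by linarith))
  have h0 : (0 : ℝ) ^ (r + 1) = 0 := Real.zero_rpow (by linarith)
  unfold I
  rw [integral_Icc_eq_integral_Ioc, ← intervalIntegral.integral_of_le zero_le_one,
    ← intervalIntegral.integral_add_adjacent_intervals (i1.trans i2) i3,
    ← intervalIntegral.integral_add_adjacent_intervals i1 i2, e1, e2, e3]
  simp only [intervalIntegral.integral_mul_const, hp, h0, Real.one_rpow]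
  ring

end Pool.Agent.V1191.LP
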