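import Pool.Agent.V1191.LP.One

/-!
Choice of the parameters.
-/

open MeasureTheory Set Filter Topology

namespace Pool.Agent.V1191.LP

/-- strict comparison of the two moments -/
theorem moment_gt {p c : ℝ} (hp : 1 < p) (hc0 : 0 < c) (hc1 : c < 1) :
    c * ((1 - c ^ p) / p) < (1 - c ^ (p + 1)) / (p + 1) := by
  have h1 : ∫ t in c..1, c * t ^ (p - 1) = c * ((1 - c ^ p) / p) := by
    rw [intervalIntegral.integral_const_mul, integral_rpow (Or.inl (by linarith))]
    simp
  have h2 : ∫ t in c..1, t ^ p = (1 - c ^ (p + 1)) / (p + 1) := by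
    rw [integral_rpow (Or.inl (by linarith))]
    simp
  rw [← h1, ← h2]
  apply intervalIntegral.integral_lt_integral_of_continuousOn_of_le_of_exists_lt hc1
  · exact (continuous_const.mul (Real.continuous_rpow_const (by linarith))).continuousOn
  · exact (Real.continuous_rpow_const (by linarith)).continuousOn
  · intro t ht
    have h0 : 0 < t := hc0.trans ht.1
    have e : t ^ p = t * t ^ (p - 1) := by
      rw [← Real.rpow_one_add' h0.le (by linarith)]; congr 1; ring
    rw [e]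
    exact mul_le_mul_of_nonneg_right ht.1.le (Real.rpow_nonneg h0.le _)
  · refine ⟨1, ⟨hc1.le, le_rfl⟩, ?_⟩
    simp [hc1]

theorem moment_lt {p a c : ℝ} (hp : 1 < p) (ha0 : 0 < a) (hac : a < c) :
    (c ^ (p + 1) - a ^ (p + 1)) / (p + 1) < c * ((c ^ p - a ^ p) / p) := by
  have h1 : ∫ t in a..c, c * t ^ (p - 1) = c * ((c ^ p - a ^ p) / p) := by
    rw [intervalIntegral.integral_const_mul, integral_rpow (Or.inl (by linarith))]
    simp
  have h2 : ∫ t in a..c, t ^ p = (c ^ (p + 1) - a ^ (p + 1)) / (p + 1) := by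
    rw [integral_rpow (Or.inl (by linarith))]
  rw [← h1, ← h2]
  apply intervalIntegral.integral_lt_integral_of_continuousOn_of_le_of_exists_lt hac
  · exact (Real.continuous_rpow_const (by linarith)).continuousOn
  · exact (continuous_const.mul (Real.continuous_rpow_const (by linarith))).continuousOn
  · intro t ht
    have h0 : 0 < t := ha0.trans ht.1
    have e : t ^ p = t * t ^ (p - 1) := by
      rw [← Real.rpow_one_add' h0.le (by linarith)]; congr 1; ring
    rw [e]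
    exact mul_le_mul_of_nonneg_right ht.2 (Real.rpow_nonneg h0.le _)
  · refine ⟨a, ⟨le_rfl, hac.le⟩, ?_⟩
    have e : a ^ p = a * a ^ (p - 1) := by
      rw [← Real.rpow_one_add' ha0.le (by linarith)]; congr 1; ring
    rw [e]
    exact mul_lt_mul_of_pos_right hac (Real.rpow_pos_of_pos ha0 _)

/-- a function with negative derivative at `0` is smaller than its value at `0` to the right -/
theorem ev_lt {F : ℝ → ℝ} {F' : ℝ} (h : HasDerivAt F F' 0) (hF : F' < 0) :
    ∀ᶠ η in 𝓝[>] (0 : ℝ), F η < F 0 := by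
  have h1 := hasDerivAt_iff_tendsto_slope_zero.mp h
  have h2 : ∀ᶠ t in 𝓝[≠] (0 : ℝ), t⁻¹ • (F (0 + t) - F 0) < 0 := h1.eventually (gt_mem_nhds hF)
  have h3 : 𝓝[>] (0 : ℝ) ≤ 𝓝[≠] (0 : ℝ) := nhdsWithin_mono _ (fun x hx => ne_of_gt hx)
  filter_upwards [h3 h2, self_mem_nhdsWithin] with t ht ht0
  have ht0' : 0 < t := ht0
  rw [zero_add, smul_eq_mul] at ht
  have : F t - F 0 < 0 := by
    by_contra hcon
    have := mul_nonneg (inv_nonneg.mpr ht0'.le) (not_lt.mp hcon)
    linarith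
  linarith

/-- The parameters. -/
theorem params {p q : ℝ} (hp : 1 < p) (hq : 1 < q) :
    ∃ a c η θ κ : ℝ, 0 ≤ a ∧ a ≤ c ∧ c ≤ 1 ∧ 0 < η ∧ η ≤ 1 ∧ 0 < θ ∧ θ ≤ 1 ∧ 0 < κ ∧ κ < 1 ∧
      I (fun t => t ^ (p - 1) * stp a c 0 (-η) η t) = 0 ∧
      I (fun t => t ^ p * stp a c (1 - θ) (1 + 2 * η) 1 t) ≤ κ * (1 / (p + 1)) ∧
      I (fun t => t ^ p * stp a c 1 (1 + η) (1 - η) t) ≤ κ * (1 / (p + 1)) ∧
      I (fun t => t ^ p * stp a c ((1 - θ) ^ q) ((1 + 2 * η) ^ q) 1 t) ≤ κ * (1 / (p + 1)) ∧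
      I (fun t => t ^ p * stp a c 1 ((1 + η) ^ q) ((1 - η) ^ q) t) ≤ κ * (1 / (p + 1)) := by
  have hp0 : 0 < p := by linarith
  set a : ℝ := (1 / 3 : ℝ) ^ (1 / p) with ha
  set c : ℝ := (2 / 3 : ℝ) ^ (1 / p) with hc
  have ha0 : 0 < a := Real.rpow_pos_of_pos (by norm_num) _
  have hac : a < c := Real.rpow_lt_rpow (by norm_num) (by norm_num) (by positivity)
  have hc0 : 0 < c := ha0.trans hac
  have hc1 : c < 1 := Real.rpow_lt_one (by norm_num) (by norm_num) (by positivity)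
  have hap : a ^ p = 1 / 3 := by
    rw [ha, ← Real.rpow_mul (by norm_num), one_div_mul_cancel hp0.ne', Real.rpow_one]
  have hcp : c ^ p = 2 / 3 := by
    rw [hc, ← Real.rpow_mul (by norm_num), one_div_mul_cancel hp0.ne', Real.rpow_one]
  set G1 : ℝ := a ^ (p + 1) / (p + 1) with hG1
  set G2 : ℝ := (c ^ (p + 1) - a ^ (p + 1)) / (p + 1) with hG2
  set G3 : ℝ := (1 - c ^ (p + 1)) / (p + 1) with hG3
  have hG1pos : 0 < G1 := by
    have := Real.rpow_pos_of_pos ha0 (p + 1)
    positivity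
  have hG2pos : 0 ≤ G2 := by
    have := Real.rpow_le_rpow ha0.le hac.le (show 0 ≤ p + 1 by linarith)
    apply div_nonneg <;> linarith
  have hsum : G1 + G2 + G3 = 1 / (p + 1) := by
    rw [hG1, hG2, hG3]; ring
  have h32 : G2 < G3 := by
    have h1 := moment_gt hp hc0 hc1
    have h2 := moment_lt hp ha0 hac
    rw [hcp] at h1
    rw [hcp, hap] at h2
    have h3 : c * ((2 / 3 - 1 / 3) / p) = c * ((1 - 2 / 3) / p) := by norm_num
    rw [h3] at h2
    exact h2.trans h1
  have hI : ∀ u v w r : ℝ, 0 ≤ r → I (fun t => t ^ r * stp a c u v w t) =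
      u * (a ^ (r + 1) / (r + 1)) + v * ((c ^ (r + 1) - a ^ (r + 1)) / (r + 1)) +
        w * ((1 - c ^ (r + 1)) / (r + 1)) :=
    fun u v w r hr => I_stp ha0.le hac.le hc1.le u v w r hr
  set K : ℝ := 2 * G2 / G1 + 1 with hK
  have hKpos : 0 < K := by positivity
  have hKG : K * G1 = 2 * G2 + G1 := by rw [hK]; field_simp
  -- the four functions of `η`
  have hd : ∀ (k m : ℝ), HasDerivAt (fun η : ℝ => (1 + k * η) ^ q * m) (q * k * m) 0 := by
    intro k m
    have h1 : HasDerivAt (fun η : ℝ => 1 + k * η) k 0 := by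
      have := ((hasDerivAt_id (0 : ℝ)).const_mul k).const_add 1
      simpa using this
    have h2 := (h1.rpow_const (p := q) (Or.inl (by simp))).mul_const m
    refine h2.congr_deriv ?_
    rw [mul_zero, add_zero, Real.one_rpow]
    ring
  have hF0 : HasDerivAt (fun η : ℝ => (1 + (-K) * η) ^ q * G1 + (1 + 2 * η) ^ q * G2 + G3)
      (q * (-K) * G1 + q * 2 * G2) 0 := ((hd (-K) G1).add (hd 2 G2)).add_const G3
  have hF1 : HasDerivAt (fun η : ℝ => (1 + 1 * η) ^ q * G2 + (1 + (-1) * η) ^ q * G3 + G1)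
      (q * 1 * G2 + q * (-1) * G3) 0 := ((hd 1 G2).add (hd (-1) G3)).add_const G1
  have e0 := ev_lt hF0 (by nlinarith)
  have e1 := ev_lt hF1 (by nlinarith)
  have e2 : ∀ᶠ η in 𝓝[>] (0 : ℝ), η < 1 / (K + 1) :=
    (Ioo_mem_nhdsGT (show (0 : ℝ) < 1 / (K + 1) by positivity)) |> fun h =>
      Filter.mem_of_superset h (fun x hx => hx.2)
  obtain ⟨η, h0, h1, h2, h3⟩ := (e0.and (e1.and (e2.and self_mem_nhdsWithin))).exists
  have hη : 0 < η := h3
  have hηK : η * (K + 1) < 1 := by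
    rw [lt_div_iff₀ (by positivity)] at h2; exact h2
  have hη1 : η ≤ 1 := by nlinarith
  have hKη : K * η ≤ 1 := by nlinarith
  simp only [mul_zero, add_zero, Real.one_rpow, one_mul] at h0 h1
  set A0 := (1 - K * η) ^ q * G1 + (1 + 2 * η) ^ q * G2 + G3 with hA0
  set A1 := G1 + (1 + η) ^ q * G2 + (1 - η) ^ q * G3 with hA1
  have hA0lt : A0 < 1 / (p + 1) := by
    rw [← hsum, hA0]
    have : (1 + -K * η) = 1 - K * η := by ring
    rw [this] at h0
    linarith
  have hA1lt : A1 < 1 / (p + 1) := by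
    rw [← hsum, hA1]
    have : (1 + -1 * η) = 1 - η := by ring
    rw [this] at h1
    linarith
  set B0 := (1 - K * η) * G1 + (1 + 2 * η) * G2 + G3 with hB0
  set B1 := G1 + (1 + η) * G2 + (1 - η) * G3 with hB1
  have hB0lt : B0 < 1 / (p + 1) := by
    rw [← hsum, hB0]; nlinarith
  have hB1lt : B1 < 1 / (p + 1) := by
    rw [← hsum, hB1]; nlinarith
  have hGpos : 0 < 1 / (p + 1) := by positivity
  set κ : ℝ := max (max (max A0 A1) (max B0 B1)) (1 / (2 * (p + 1))) * (p + 1) with hκ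
  have hmax : max (max (max A0 A1) (max B0 B1)) (1 / (2 * (p + 1))) < 1 / (p + 1) := by
    apply max_lt (max_lt (max_lt hA0lt hA1lt) (max_lt hB0lt hB1lt))
    apply one_div_lt_one_div_of_lt (by linarith) (by linarith)
  have hκG : κ * (1 / (p + 1)) = max (max (max A0 A1) (max B0 B1)) (1 / (2 * (p + 1))) := by
    rw [hκ]; field_simp
  have hκ0 : 0 < κ := by
    rw [hκ]
    apply mul_pos _ (by linarith)
    exact lt_of_lt_of_le (by positivity) (le_max_right _ _)
  have hκ1 : κ < 1 := by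
    rw [hκ]
    calc _ < 1 / (p + 1) * (p + 1) := mul_lt_mul_of_pos_right hmax (by linarith)
      _ = 1 := by field_simp
  refine ⟨a, c, η, K * η, κ, ha0.le, hac.le, hc1.le, hη, hη1, by positivity, hKη, hκ0, hκ1,
    ?_, ?_, ?_, ?_, ?_⟩
  · rw [hI _ _ _ _ (by linarith), show p - 1 + 1 = p by ring, hcp, hap]
    ring
  · rw [hI _ _ _ _ hp0.le, hκG, ← hG1, ← hG2, ← hG3]
    refine le_trans ?_ ((le_max_left _ _).trans ((le_max_right _ _).trans (le_max_left _ _)))
    rw [hB0]; linarith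
  · rw [hI _ _ _ _ hp0.le, hκG, ← hG1, ← hG2, ← hG3]
    refine le_trans ?_ ((le_max_right _ _).trans ((le_max_right _ _).trans (le_max_left _ _)))
    rw [hB1]; linarith
  · rw [hI _ _ _ _ hp0.le, hκG, ← hG1, ← hG2, ← hG3]
    refine le_trans ?_ ((le_max_left _ _).trans ((le_max_left _ _).trans (le_max_left _ _)))
    rw [hA0]; linarith
  · rw [hI _ _ _ _ hp0.le, hκG, ← hG1, ← hG2, ← hG3]
    refine le_trans ?_ ((le_max_right _ _).trans ((le_max_left _ _).trans (le_max_left _ _)))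
    rw [hA1]; linarith

end Pool.Agent.V1191.LP
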